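import Pool.Agent.DQ2.Stmts

set_option autoImplicit false

/-!
# Squad DQ2, row TWP: two points of the universal form
-/

open MvPolynomial

namespace Pool.Agent.DQ2.H16

/-- A form which is monic in the variable `0` has a zero with given other coordinates. -/
theorem exists_root {E : Type} [Field E] [IsAlgClosed E] (N d : ℕ)
    (F : MvPolynomial (Fin (N + 1)) E) (hd : 1 ≤ d) (hF : F.IsHomogeneous d)
    (hc : coeff (Finsupp.single 0 d) F = 1) (u : Fin (N + 1) → E) :
    ∃ r : E, eval (Function.update u 0 r) F = 0 := by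
  classical
  set h : Fin (N + 1) → Polynomial E :=
    fun j => if j = 0 then Polynomial.X else Polynomial.C (u j) with hh
  set g : Polynomial E := eval₂ Polynomial.C h F with hg
  have h0 : h 0 = Polynomial.X := by rw [hh]; simp
  have hs : ∀ j : Fin N, h j.succ = Polynomial.C (u j.succ) := by
    intro j
    rw [hh]
    simp [Fin.succ_ne_zero]
  have hev : ∀ r : E, Polynomial.eval r g = eval (Function.update u 0 r) F := by
    intro r
    rw [hg, eval₂_eq', eval_eq', Polynomial.eval_finsetSum]
    refine Finset.sum_congr rfl fun m _ => ?_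
    rw [Polynomial.eval_mul, Polynomial.eval_C, Polynomial.eval_prod]
    congr 1
    refine Finset.prod_congr rfl fun j _ => ?_
    rw [Polynomial.eval_pow]
    congr 1
    refine Fin.cases ?_ (fun i => ?_) j
    · rw [h0, Polynomial.eval_X, Function.update_self]
    · rw [hs, Polynomial.eval_C, Function.update_of_ne (Fin.succ_ne_zero i)]
  have hterm : ∀ m : Fin (N + 1) →₀ ℕ, Polynomial.C (coeff m F) * ∏ j, h j ^ m j =
      Polynomial.C (coeff m F * ∏ j : Fin N, u j.succ ^ m j.succ) * Polynomial.X ^ m 0 := by
    intro m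
    rw [Fin.prod_univ_succ, h0]
    have h1 : ∏ j : Fin N, h j.succ ^ m j.succ =
        Polynomial.C (∏ j : Fin N, u j.succ ^ m j.succ) := by
      rw [map_prod]
      refine Finset.prod_congr rfl fun j _ => ?_
      rw [hs, Polynomial.C_pow]
    rw [h1, Polynomial.C_mul]
    ring
  have hcoeff : g.coeff d = 1 := by
    rw [hg, eval₂_eq', Polynomial.finsetSum_coeff]
    rw [Finset.sum_eq_single (Finsupp.single 0 d)]
    · rw [hterm, hc, Polynomial.coeff_C_mul, Polynomial.coeff_X_pow]
      have h1 : ∀ j : Fin N, (Finsupp.single (0 : Fin (N + 1)) d) j.succ = 0 := fun j =>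
        Finsupp.single_eq_of_ne (Fin.succ_ne_zero j)
      simp [h1]
    · intro m hm hne
      rw [hterm, Polynomial.coeff_C_mul, Polynomial.coeff_X_pow]
      rw [if_neg, mul_zero]
      intro hdm
      apply hne
      have h1 : m.degree = d := by
        have h2 := hF (mem_support_iff.1 hm)
        rw [Finsupp.degree_eq_weight_one]
        exact h2
      have h3 : m.degree = ∑ j, m j := Finsupp.degree_eq_sum m
      rw [h1, Fin.sum_univ_succ, ← hdm] at h3
      have h4 : ∑ j : Fin N, m j.succ = 0 := by omega
      ext j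
      refine Fin.cases ?_ (fun i => ?_) j
      · rw [Finsupp.single_eq_same, ← hdm]
      · rw [Finsupp.single_eq_of_ne (Fin.succ_ne_zero i)]
        exact (Finset.sum_eq_zero_iff.1 h4) i (Finset.mem_univ i)
    · intro hn
      rw [mem_support_iff, not_not] at hn
      rw [hn] at hc
      exact absurd hc zero_ne_one
  have hdeg : g.degree ≠ 0 := by
    intro h1
    have h2 : d ≤ g.natDegree := Polynomial.le_natDegree_of_ne_zero (by rw [hcoeff]; exact one_ne_zero)
    have h3 : g.natDegree = 0 := Polynomial.natDegree_eq_of_degree_eq_some h1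
    omega
  obtain ⟨r, hr⟩ := IsAlgClosed.exists_root g hdeg
  exact ⟨r, by rw [← hev r]; exact hr⟩

/-- **Row TWP.** -/
theorem twp (hHOM : HOM) : TWP := by
  intro n d hn hd
  have hF : (map (algebraMap (LDP.KK n d) (AlgebraicClosure (LDP.KK n d)))
      (LDP.FK n d)).IsHomogeneous d := by
    refine IsHomogeneous.map ?_ _
    exact IsHomogeneous.map (hHOM n d).1 _
  have hc : coeff (Finsupp.single 0 d) (map (algebraMap (LDP.KK n d)
      (AlgebraicClosure (LDP.KK n d))) (LDP.FK n d)) = 1 := by
    rw [coeff_map]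
    have h1 : coeff (Finsupp.single 0 d) (LDP.FK n d) = 1 := by
      unfold LDP.FK
      rw [coeff_map, (hHOM n d).2 _ (Finsupp.degree_single _ _)]
      have h2 : LDP.cf n d (Finsupp.single 0 d) = 1 := by
        unfold LDP.cf
        rw [dif_neg]
        intro h
        exact h.2 rfl
      rw [h2, map_one]
    rw [h1, map_one]
  have key : ∀ u : Fin (n + 2) → AlgebraicClosure (LDP.KK n d), ∃ r,
      aeval (Function.update u 0 r) (LDP.FK n d) = 0 := by
    intro u
    obtain ⟨r, hr⟩ := exists_root (n + 1) d _ hd hF hc u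
    refine ⟨r, ?_⟩
    rw [aeval_def, ← eval_map]
    exact hr
  obtain ⟨r, hr⟩ := key fun j => if j.1 = 1 then 1 else 0
  obtain ⟨r', hr'⟩ := key fun j => if j.1 = 2 then 1 else 0
  have h1 : (⟨1, by omega⟩ : Fin (n + 2)) ≠ 0 := by
    intro h
    have := congrArg Fin.val h
    simp at this
  have h2 : (⟨2, by omega⟩ : Fin (n + 2)) ≠ 0 := by
    intro h
    have := congrArg Fin.val h
    simp at this
  refine ⟨_, _, ⟨1, by omega⟩, ⟨2, by omega⟩, hr, hr', ?_⟩
  rw [Function.update_of_ne h1, Function.update_of_ne h2, Function.update_of_ne h1,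
    Function.update_of_ne h2]
  simp

end Pool.Agent.DQ2.H16
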